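import Pool.Agent.Y139.SM.Fin2

/-!
# The order at the edge of `L(H, s)` from the orders of the odd tensor powers

`X` is a smooth projective variety over a number field `K`, for example over `K = ℚ`, `H = H^i(X)`, of
dimension `N`, and `χ` an Artin representation of `K`, of dimension `n`.  The tensor power `H^{⊗ r}` is a
part of `H^{ri}(X^r)`; the edge of `L(H^{⊗ r} ⊗ χ, s)` is the point `r i / 2 + 1`.  For `K = ℚ`, `r = 1` and
`χ = 1` it is the point `s₀` of the problem.  Nothing is assumed about the automorphy of `H`.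
The definitions are in `Pool.Agent.Y139.SM.GDefs`, `Pool.Agent.W353.AT.Defs`, `Pool.Agent.W353.EH.Defs`
and `Pool.Agent.W353.EF.Defs`.
-/

set_option autoImplicit false

namespace Pool.Agent.Results.MP_2b9663_nt.OddTensorPowers

open NumberField IsDedekindDomain Filter Topology Polynomial
open Pool.Agent.W353.EF (LFun)
open Pool.Agent.W353.EH (edgePoint size HasOrder)
open Pool.Agent.W353.AT (IsArtin)
open Pool.Agent.Y139.SM (IsPowerSystem)

/-- The coefficient of `t ^ r` in `N T_R(t / N) / T_R'(0)`, for the Chebyshev polynomial `T_R` of odd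
degree `R`; for `r = 1` (and `N ≠ 0`) it is `1`. -/
noncomputable def coef (N R r : ℕ) : ℝ :=
  ((Chebyshev.T ℝ (R : ℤ)).coeff 1)⁻¹ * N * ((Chebyshev.T ℝ (R : ℤ)).coeff r * ((N : ℝ)⁻¹) ^ r)

/-- Let `R` be odd and write `x_r` for `log |L(H^{⊗ r} ⊗ χ, edge + ε)| / log(1/ε)`, a function of `ε > 0`.
* (no continuation is assumed)  For odd `r ≤ R` the values `L(H^{⊗ r} ⊗ χ, edge + ε)` are not zero for small
  `ε > 0`, and `|x_1 + ∑ c_r x_r| ≤ n N / R + η` for all `η > 0` and all small `ε > 0`, the sum over the odd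
  `r` with `3 ≤ r ≤ R`, with the coefficients `c_r` of the Chebyshev polynomial `N T_R(t / N) / T_R'(0)`.
* If the functions for the odd `r ≤ R` have meromorphic continuations to neighbourhoods of their edges,
  of orders `k_r`, then `|k_1 + ∑ c_r k_r| ≤ n N / R`.
* If `R > n N` and `L(H^{⊗ r} ⊗ χ, s)` has the order `0` at its edge for all odd `r` with `3 ≤ r ≤ R`, then
  every meromorphic continuation of `L(H ⊗ χ, s)` to a neighbourhood of its edge has the order `0` there. -/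
theorem result (K : Type) [Field K] [NumberField K] (l d i N : ℕ)
    (X : Set (MvPolynomial (Fin l) (𝓞 K))) (hi : i ≤ 2 * d) (n : ℕ)
    (χ : Representation ℂ Gal(AlgebraicClosure K/K) (Fin n → ℂ)) (hχ : IsArtin χ)
    (R : ℕ) (hR : Odd R) (B : ℕ → HeightOneSpectrum (𝓞 K) → ℂ[X])
    (hB : ∀ r, Odd r → r ≤ R → IsPowerSystem X d i N r χ (B r)) :
    (∀ r, Odd r → r ≤ R → ∀ᶠ ε : ℝ in 𝓝[>] 0, LFun (B r) (edgePoint (r * i) 0 + ε) ≠ 0) ∧
    (∀ η : ℝ, 0 < η → ∀ᶠ ε : ℝ in 𝓝[>] 0,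
      |size (1 * i) 0 (B 1) ε + ∑ r ∈ Finset.range (R + 1) with Odd r ∧ 3 ≤ r,
        coef N R r * size (r * i) 0 (B r) ε| ≤ n * ((N : ℝ) / R) + η) ∧
    (∀ k : ℕ → ℤ, (∀ r, Odd r → r ≤ R → HasOrder (r * i) 0 (B r) (k r)) →
      |(k 1 : ℝ) + ∑ r ∈ Finset.range (R + 1) with Odd r ∧ 3 ≤ r, coef N R r * k r| ≤
        n * ((N : ℝ) / R)) ∧
    (n * N < R → (∀ r, Odd r → 3 ≤ r → r ≤ R → HasOrder (r * i) 0 (B r) 0) →
      ∀ k : ℤ, HasOrder (1 * i) 0 (B 1) k → k = 0) := by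
  obtain ⟨h1, h2, h3⟩ := Pool.Agent.Y139.SM.oddPowers hi χ hχ hR B hB
  refine ⟨h1, h2, fun k hk => ?_, h3⟩
  have t1 := Pool.Agent.Y139.SM.size_of_order (h1 1 odd_one hR.pos) (hk 1 odd_one hR.pos)
  have t2 : Tendsto (fun ε => ∑ r ∈ Finset.range (R + 1) with Odd r ∧ 3 ≤ r,
      coef N R r * size (r * i) 0 (B r) ε) (𝓝[>] 0)
      (𝓝 (∑ r ∈ Finset.range (R + 1) with Odd r ∧ 3 ≤ r, coef N R r * (-(k r : ℝ)))) := by
    refine tendsto_finsetSum _ fun r hr => ?_
    rw [Finset.mem_filter, Finset.mem_range] at hr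
    exact (Pool.Agent.Y139.SM.size_of_order (h1 r hr.2.1 (by omega))
      (hk r hr.2.1 (by omega))).const_mul _
  have t3 := (t1.add t2).abs
  have e : |-(k 1 : ℝ) + ∑ r ∈ Finset.range (R + 1) with Odd r ∧ 3 ≤ r, coef N R r * (-(k r : ℝ))| =
      |(k 1 : ℝ) + ∑ r ∈ Finset.range (R + 1) with Odd r ∧ 3 ≤ r, coef N R r * k r| := by
    rw [← abs_neg]
    congr 1
    rw [neg_add, neg_neg, ← Finset.sum_neg_distrib]
    congr 1
    exact Finset.sum_congr rfl fun r _ => by ring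
  rw [e] at t3
  refine le_of_forall_pos_le_add fun η hη => ?_
  exact le_of_tendsto t3 (h2 η hη)

end Pool.Agent.Results.MP_2b9663_nt.OddTensorPowers
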