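import Pool.Agent.X303.SQ.Main

/-!
# The orders at the edge of all tensor powers of a cohomology of rank two

`X` is a smooth projective variety over a number field `K`, for example over `K = ℚ`, of dimension `d`,
such that `H = H^i(X)` has dimension two; for example `H^1` of an elliptic curve over an arbitrary
number field.  The edge of `L(H^{⊗ r}, s)` is the point `ri/2 + 1`; for `K = ℚ` and `r = 1` this is the
point `s₀` of the problem, and `H^{⊗ r}` is a part of `H^{ri}(X^r)`.  Nothing is assumed about the
automorphy of `H`.  The definitions are in `Pool.Agent.X303.SQ.LawDefs2`,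
`Pool.Agent.X303.SC.LawDefs`, `Pool.Agent.Y139.SM.GDefs`, `Pool.Agent.W353.EH.Defs` and
`Pool.Agent.W353.EF.Defs`.
-/

set_option autoImplicit false

namespace Pool.Agent.Results.MP_2b9663_nt.RankTwoOrders

open NumberField IsDedekindDomain Polynomial
open Pool.Agent.W353.EH (HasOrder)
open Pool.Agent.Y139.SM (IsPowerSystem)
open Pool.Agent.X303.SC (IsTrace HasMean HasSize DensityZero)
open Pool.Agent.X303.SQ (IsLaw Orders)

/-- Let `H = H^i(X)` have dimension two, and let `t v` be the normalised trace of Frobenius.  Suppose
that for every `r ≥ 1` the function `L(H^{⊗ r}, s)` has a meromorphic continuation to a neighbourhood of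
the one point `ri/2 + 1`, of order `k_r` there (or only that
`log |L(H^{⊗ r}, ri/2 + 1 + ε)| / log(1/ε)` tends to an integer `-k_r` as `ε → 0+`).  No `L`-function is
assumed to be holomorphic or different from zero on the edge line.  Then one of the following holds.
* There is an `n ≥ 1` such that, up to a set of primes of Dirichlet density zero, the traces are near to
the finitely many numbers `2 cos(2πj/n)`.
* The traces `t v = 2 cos θ_v` are equidistributed, in the sense of Dirichlet density, for one of the laws
`(1 + ε cos(nθ)) dθ / π` on `[0, π]` with `ε = -1, 0, 1`, or one half of the uniform distribution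
`dθ / π` plus one half of the equidistribution on the angles `(2j + a)π/n`, `0 ≤ j < n`, with `a = 0, 1`;
here `n ≥ 1`.  All orders `k_r` are minus the moments of this law.  If `k₂ ≥ -1`, that is if the square
has at most a simple pole, then `k_r = 0` for odd `r`, and the law is the Sato–Tate law and `k_{2m}` is
minus the Catalan number, or it is the law of the normaliser of a torus and `k_{2m}` is minus one half of
the central binomial coefficient; in particular no function `L(H^{⊗ r}, s)` vanishes at `ri/2 + 1`. -/
theorem result (K : Type) [Field K] [NumberField K] (l d i : ℕ)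
    (X : Set (MvPolynomial (Fin l) (𝓞 K))) (hi : i ≤ 2 * d)
    (t : HeightOneSpectrum (𝓞 K) → ℝ) (ht : IsTrace X d i 2 t) (k : ℕ → ℤ)
    (hk : ∀ r, 1 ≤ r → ∃ B : HeightOneSpectrum (𝓞 K) → ℂ[X],
      IsPowerSystem X d i 2 r
        (1 : Representation ℂ Gal(AlgebraicClosure K/K) (Fin 1 → ℂ)) B ∧
        (HasOrder (r * i) 0 B (k r) ∨ HasSize (r * i) B (k r))) :
    (∃ n : ℕ, 1 ≤ n ∧ ∀ δ : ℝ, 0 < δ →
      DensityZero {v | ∀ j : ℤ, δ ≤ |t v - 2 * Real.cos (2 * Real.pi * j / n)|}) ∨
    ∃ L : (ℝ → ℝ) → ℝ, IsLaw L ∧
      (∀ f : ℝ → ℝ, Continuous f → HasMean (fun v => f (t v)) (L f)) ∧ Orders k L :=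
  Pool.Agent.X303.SQ.rankTwoLaws hi ht hk

end Pool.Agent.Results.MP_2b9663_nt.RankTwoOrders
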