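import Pool.Agent.Y139.SM.Cube2

/-!
# The order at the edge of `L(H, s)` from the orders of the tensor square and the tensor cube

`X` is a smooth projective variety over a number field `K`, for example over `K = ℚ`, `H = H^i(X)`, of
dimension `N`, and `χ` a character of the absolute Galois group of `K` with values `1` and `-1` (for
example `χ = 1`).  The tensor power `H^{⊗ r}` is a part of `H^{ri}(X^r)`; the edge of
`L(H^{⊗ r} ⊗ χ, s)` is the point `r i / 2 + 1`.  For `K = ℚ`, `r = 1` and `χ = 1` it is the point `s₀` of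
the problem.  Nothing is assumed about the automorphy of `H`.
The definitions are in `Pool.Agent.Y139.SM.GDefs`, `Pool.Agent.W353.AT.Defs`, `Pool.Agent.W353.EH.Defs`
and `Pool.Agent.W353.EF.Defs`.
-/

set_option autoImplicit false

namespace Pool.Agent.Results.MP_2b9663_nt.SquareAndCubeOrders

open NumberField IsDedekindDomain Filter Topology Polynomial
open Pool.Agent.W353.EF (LFun)
open Pool.Agent.W353.EH (edgePoint size HasOrder)
open Pool.Agent.W353.AT (IsArtin)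
open Pool.Agent.Y139.SM (IsPowerSystem)

/-- Write `x(M)` for `log |L(M, edge + ε)| / log(1/ε)`, a function of `ε > 0`.
* (no continuation is assumed)  `L(M, edge + ε) ≠ 0` for `M = H ⊗ χ, H ⊗ H, H^{⊗ 3} ⊗ χ` and all small
  `ε > 0`, and `|(2 N - 1) x(H ⊗ χ) - x(H^{⊗ 3} ⊗ χ)| ≤ N + (N - 2) x(H ⊗ H) + η` for all `η > 0` and all
  small `ε > 0`.
* If the three functions have meromorphic continuations to neighbourhoods of their edges, of orders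
  `k₁, k₂, k₃`, then `|(2 N - 1) k₁ - k₃| ≤ N - (N - 2) k₂`.
* If moreover `N ≥ 2` and `L(H ⊗ H, s)` has at most a simple pole at the edge, then: if
  `L(H^{⊗ 3} ⊗ χ, s)` does not vanish at its edge, then `L(H ⊗ χ, s)` does not vanish at its edge; if
  `L(H^{⊗ 3} ⊗ χ, s)` has no pole at its edge, then `L(H ⊗ χ, s)` has none. -/
theorem result (K : Type) [Field K] [NumberField K] (l d i N : ℕ)
    (X : Set (MvPolynomial (Fin l) (𝓞 K))) (hi : i ≤ 2 * d)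
    (χ : Representation ℂ Gal(AlgebraicClosure K/K) (Fin 1 → ℂ)) (hχ : IsArtin χ)
    (hreal : ∀ g, χ.character g = 1 ∨ χ.character g = -1)
    (B₁ B₂ B₃ : HeightOneSpectrum (𝓞 K) → ℂ[X]) (hB₁ : IsPowerSystem X d i N 1 χ B₁)
    (hB₂ : IsPowerSystem X d i N 2
      (1 : Representation ℂ Gal(AlgebraicClosure K/K) (Fin 1 → ℂ)) B₂)
    (hB₃ : IsPowerSystem X d i N 3 χ B₃) :
    (∀ᶠ ε : ℝ in 𝓝[>] 0, LFun B₁ (edgePoint (1 * i) 0 + ε) ≠ 0 ∧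
      LFun B₂ (edgePoint (2 * i) 0 + ε) ≠ 0 ∧ LFun B₃ (edgePoint (3 * i) 0 + ε) ≠ 0) ∧
    (∀ η : ℝ, 0 < η → ∀ᶠ ε : ℝ in 𝓝[>] 0,
      |(2 * N - 1) * size (1 * i) 0 B₁ ε - size (3 * i) 0 B₃ ε| ≤
        N + (N - 2) * size (2 * i) 0 B₂ ε + η) ∧
    ∀ k₁ k₂ k₃ : ℤ, HasOrder (1 * i) 0 B₁ k₁ → HasOrder (2 * i) 0 B₂ k₂ →
      HasOrder (3 * i) 0 B₃ k₃ →
      |(2 * N - 1) * k₁ - k₃| ≤ N - (N - 2) * k₂ ∧
      (2 ≤ N → -1 ≤ k₂ → (k₃ ≤ 0 → k₁ ≤ 0) ∧ (0 ≤ k₃ → 0 ≤ k₁)) := by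
  obtain ⟨h1, h2, h3⟩ := Pool.Agent.Y139.SM.squareCubeOrders hi χ hχ hreal B₁ B₂ B₃ hB₁ hB₂ hB₃
  refine ⟨h1, h2, fun k₁ k₂ k₃ o1 o2 o3 => ⟨?_, fun hN hk => h3 hN k₁ k₂ k₃ o1 o2 o3 hk⟩⟩
  have t1 := Pool.Agent.Y139.SM.size_of_order (h1.mono fun ε h => h.1) o1
  have t2 := Pool.Agent.Y139.SM.size_of_order (h1.mono fun ε h => h.2.1) o2
  have t3 := Pool.Agent.Y139.SM.size_of_order (h1.mono fun ε h => h.2.2) o3
  have hl : |(2 * (N : ℝ) - 1) * (-(k₁ : ℝ)) - (-(k₃ : ℝ))| ≤ N + (N - 2) * (-(k₂ : ℝ)) := by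
    have g1 : Tendsto (fun ε => |(2 * (N : ℝ) - 1) * size (1 * i) 0 B₁ ε -
        size (3 * i) 0 B₃ ε|) (𝓝[>] 0)
        (𝓝 |(2 * (N : ℝ) - 1) * (-(k₁ : ℝ)) - (-(k₃ : ℝ))|) := ((t1.const_mul _).sub t3).abs
    refine le_of_forall_pos_le_add fun η hη => ?_
    have g2 : Tendsto (fun ε => (N : ℝ) + (N - 2) * size (2 * i) 0 B₂ ε + η) (𝓝[>] 0)
        (𝓝 ((N : ℝ) + (N - 2) * (-(k₂ : ℝ)) + η)) :=
      ((t2.const_mul _).const_add _).add_const _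
    exact le_of_tendsto_of_tendsto g1 g2 (h2 η hη)
  have e : |(2 * (N : ℝ) - 1) * (-(k₁ : ℝ)) - (-(k₃ : ℝ))| =
      |(2 * (N : ℝ) - 1) * (k₁ : ℝ) - (k₃ : ℝ)| := by
    rw [← abs_neg]
    congr 1
    ring
  rw [e] at hl
  have hl' : |(2 * (N : ℝ) - 1) * (k₁ : ℝ) - (k₃ : ℝ)| ≤ N - (N - 2) * (k₂ : ℝ) := by
    linarith
  exact_mod_cast hl'

end Pool.Agent.Results.MP_2b9663_nt.SquareAndCubeOrders
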