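import Pool.Agent.X303.SC.Bes

/-!
# Zeros and poles on the edge line of all Artin twists, and the pole of the tensor square

`X` is a smooth projective variety over a number field `K`, for example over `K = ℚ`, `H = H^i(X)`, of
dimension `N`.  The edge line of `L(H ⊗ ρ, s)`, for an Artin representation `ρ` of `K`, is the line
`Re s = i/2 + 1`; for `K = ℚ` and `ρ = 1` its real point is the point `s₀` of the problem.  The edge of
`L(H ⊗ H, s)` is the point `i + 1`.  Nothing is assumed about the automorphy of `H`.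
The definitions are in `Pool.Agent.Y139.SM.GDefs`, `Pool.Agent.W353.AT.Defs`, `Pool.Agent.W353.EH.Defs`
and `Pool.Agent.W353.EF.Defs`.
-/

set_option autoImplicit false

namespace Pool.Agent.Results.MP_2b9663_nt.TensorSquareBessel

open NumberField IsDedekindDomain Filter Topology Polynomial
open Pool.Agent.W353.EF (LFun)
open Pool.Agent.W353.EH (edgePoint size HasOrder)
open Pool.Agent.W353.AT (IsArtin IsTwistedSystem TwistOrder)
open Pool.Agent.Y139.SM (IsPowerSystem)

/-- * Let `(ρ_k, τ_k)`, `k` in a finite set, be pairs of an irreducible Artin representation and a real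
number, with `ρ_k` not isomorphic to `ρ_l` if `k ≠ l` and `τ_k = τ_l`.  For every `η > 0` and all small
`ε > 0`, `∑ x_k(ε)² ≤ x(ε) + η`, where `x_k(ε) = log |L(H ⊗ ρ_k, i/2 + 1 + iτ_k + ε)| / log(1/ε)` and
`x(ε) = log |L(H ⊗ H, i + 1 + ε)| / log(1/ε)` (no continuation is assumed here).  If there are meromorphic
continuations of these functions to neighbourhoods of the points, then `∑ m_k² ≤ -k₂` for the orders `m_k`
at `i/2 + 1 + iτ_k` and the order `k₂` of `L(H ⊗ H, s)` at `i + 1`: the number of the zeros and poles on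
the edge line of all these twists is at most the order of the pole of `L(H ⊗ H, s)`.
* Suppose that `L(H ⊗ H, s)` has at most a simple pole at `i + 1`.  If `L(H ⊗ ρ, s)` has a zero or a pole
at `i/2 + 1 + iτ`, for an irreducible Artin representation `ρ` and a real number `τ`, then the pole of
`L(H ⊗ H, s)` is simple, the zero or pole of `L(H ⊗ ρ, s)` is simple, `τ = 0`, the character of `ρ` is
real, and all irreducible Artin representations `ρ'` for which `L(H ⊗ ρ', s)` has a zero or a pole on the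
edge line are isomorphic to `ρ`. -/
theorem result (K : Type) [Field K] [NumberField K] (l d i N : ℕ)
    (X : Set (MvPolynomial (Fin l) (𝓞 K))) (hi : i ≤ 2 * d)
    (B₂ : HeightOneSpectrum (𝓞 K) → ℂ[X]) (hB₂ : IsPowerSystem X d i N 2
      (1 : Representation ℂ Gal(AlgebraicClosure K/K) (Fin 1 → ℂ)) B₂) :
    (∀ (κ : Type) [Fintype κ] (n : κ → ℕ)
      (ρ : ∀ k, Representation ℂ Gal(AlgebraicClosure K/K) (Fin (n k) → ℂ)) (τ : κ → ℝ),
      (∀ k, IsArtin (ρ k)) → (∀ k, (ρ k).IsIrreducible) →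
      (∀ k l, k ≠ l → τ k = τ l → IsEmpty ((ρ k).Equiv (ρ l))) →
      (∀ B : κ → HeightOneSpectrum (𝓞 K) → ℂ[X],
        (∀ k, IsTwistedSystem X d i N (ρ k) (τ k) (B k)) →
        ∀ η : ℝ, 0 < η → ∀ᶠ ε : ℝ in 𝓝[>] 0,
          ∑ k, (size i (τ k) (B k) ε) ^ 2 ≤ size (2 * i) 0 B₂ ε + η) ∧
      ∀ (m : κ → ℤ) (k₂ : ℤ), (∀ k, TwistOrder X d i N (ρ k) (τ k) (m k)) →
        HasOrder (2 * i) 0 B₂ k₂ → ∑ k, m k ^ 2 ≤ -k₂) ∧
    ∀ k₂ : ℤ, HasOrder (2 * i) 0 B₂ k₂ → -1 ≤ k₂ →
      ∀ (n : ℕ) (ρ : Representation ℂ Gal(AlgebraicClosure K/K) (Fin n → ℂ)) (τ : ℝ) (m : ℤ),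
      IsArtin ρ → ρ.IsIrreducible → TwistOrder X d i N ρ τ m → m ≠ 0 →
        k₂ = -1 ∧ (m = 1 ∨ m = -1) ∧ τ = 0 ∧ (∀ g, (ρ.character g).im = 0) ∧
        ∀ (n' : ℕ) (ρ' : Representation ℂ Gal(AlgebraicClosure K/K) (Fin n' → ℂ)) (τ' : ℝ)
          (m' : ℤ), IsArtin ρ' → ρ'.IsIrreducible → TwistOrder X d i N ρ' τ' m' → m' ≠ 0 →
          Nonempty (ρ.Equiv ρ') := by
  classical
  refine ⟨fun κ _ n ρ τ hA hirr hne =>
    ⟨fun B hB η hη => Pool.Agent.X303.SC.besselSize hi hB₂ hA hirr hne hB hη,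
      fun m k₂ hm hk₂ => Pool.Agent.X303.SC.besselOrder hi hB₂ hk₂ hA hirr hne hm⟩, ?_⟩
  intro k₂ hk₂ h1 n ρ τ m hA hirr hm hm0
  have hsq : 1 ≤ m ^ 2 := by
    have : 0 < m ^ 2 := by positivity
    omega
  -- one twist
  have hb1 : m ^ 2 ≤ -k₂ := by
    have := Pool.Agent.X303.SC.besselOrder (κ := Unit) (n := fun _ => n) (ρ := fun _ => ρ)
      (τ := fun _ => τ) hi hB₂ hk₂ (fun _ => hA) (fun _ => hirr)
      (fun k l h _ => absurd (Subsingleton.elim k l) h) (m := fun _ => m) (fun _ => hm)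
    simpa using this
  -- the conjugate
  have hconj : ∀ (n : ℕ) (ρ : Representation ℂ Gal(AlgebraicClosure K/K) (Fin n → ℂ)) (τ : ℝ)
      (m : ℤ), IsArtin ρ → ρ.IsIrreducible → TwistOrder X d i N ρ τ m → m ≠ 0 →
      τ = 0 ∧ ∀ g, (ρ.character g).im = 0 := by
    intro n ρ τ m hA hirr hm hm0
    by_contra hcon
    have hne : τ ≠ 0 ∨ ∃ g, (ρ.character g).im ≠ 0 := by
      by_cases h : τ = 0
      · right
        by_contra h2
        push Not at h2
        exact hcon ⟨h, h2⟩
      · exact Or.inl h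
    have h2 := Pool.Agent.X303.SC.besselConj hi hB₂ hk₂ hA hirr hne hm
    have h3 : 0 < m ^ 2 := by positivity
    omega
  obtain ⟨hτ, hreal⟩ := hconj n ρ τ m hA hirr hm hm0
  refine ⟨by omega, ?_, hτ, hreal, ?_⟩
  · have h2 : m ^ 2 = 1 := by omega
    have h3 : (m - 1) * (m + 1) = 0 := by ring_nf; omega
    rcases mul_eq_zero.1 h3 with h | h
    · left; omega
    · right; omega
  · intro n' ρ' τ' m' hA' hirr' hm' hm0'
    obtain ⟨hτ', -⟩ := hconj n' ρ' τ' m' hA' hirr' hm' hm0'
    by_contra hcon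
    rw [not_nonempty_iff] at hcon
    have hcon' : IsEmpty (ρ'.Equiv ρ) := ⟨fun e => hcon.false e.symm⟩
    let nn : Bool → ℕ := fun b => match b with
      | true => n
      | false => n'
    let R : ∀ b : Bool, Representation ℂ Gal(AlgebraicClosure K/K) (Fin (nn b) → ℂ) :=
      fun b => match b with
      | true => ρ
      | false => ρ'
    have h2 := Pool.Agent.X303.SC.besselOrder (κ := Bool) (n := nn) (ρ := R)
      (τ := fun _ => 0) hi hB₂ hk₂
      (fun b => by cases b; exacts [hA', hA])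
      (fun b => by cases b; exacts [hirr', hirr])
      (fun k l h _ => by
        cases k <;> cases l
        · exact absurd rfl h
        · exact hcon'
        · exact hcon
        · exact absurd rfl h)
      (m := fun b => match b with
      | true => m
      | false => m')
      (fun b => by
        cases b
        · subst hτ'; exact hm'
        · subst hτ; exact hm)
    rw [Fintype.sum_bool] at h2
    have h3 : 0 < m' ^ 2 := by positivity
    simp only at h2
    omega

end Pool.Agent.Results.MP_2b9663_nt.TensorSquareBessel
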